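import Mathlib
import Pool.Agent.W527.TateDefs

/-!
# Frobenius polynomials, and the ring generated by the Tate classes of small codimension
-/

set_option autoImplicit false

namespace Pool.Agent.K1H15.BC

open Polynomial Pool.Agent.W527.TateRing

/-- The properties of the characteristic polynomial `P` of the Frobenius endomorphism of an abelian
variety of dimension `g` over the field with `p ^ m` elements which are used here: `P` is monic of
degree `2 g`, its complex roots have absolute value `p ^ (m / 2)` (Weil), and its Newton polygon has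
slopes `a / b` in the interval from `0` to `1` with denominators `b ≤ 2 g` (Manin). -/
structure IsFrobeniusPolynomial (p m g : ℕ) [Fact p.Prime] (P : ℤ[X]) : Prop where
  monic : P.Monic
  degree : P.natDegree = 2 * g
  weil : ∀ z : ℂ, aeval z P = 0 → ‖z‖ ^ 2 = (p : ℝ) ^ m
  slopes : ∀ z : PadicAlgCl p, aeval z P = 0 →
    ∃ a b : ℕ, a ≤ b ∧ 0 < b ∧ b ≤ 2 * g ∧ ‖z‖ ^ b = ((p : ℝ) ^ (m * a))⁻¹

variable {Ω : Type} [Field Ω]

/-- The Frobenius of `X` is semisimple and its eigenvalues are roots of `P`: if `P` is the Frobenius
polynomial of the abelian variety `B`, these are the abelian varieties over the finite field whose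
simple factors are isogenous to factors of `B`, for instance all powers of `B`. -/
def HasEigenvaluesIn (P : ℤ[X]) (X : FrobSpace Ω) : Prop :=
  Submodule.span Ω {v : X.V | ∃ z : Ω, aeval z P = 0 ∧ X.F v = z • v} = ⊤

/-- The ring of cohomology classes of `X` generated by the Tate classes of codimension at most `N`:
the smallest system of cohomology classes of `X` which contains these classes and is stable under
linear combinations, renaming of the variables and cup products. -/
inductive Generated (q N : ℕ) (X : FrobSpace Ω) : (κ : Type) → Coh X κ → Prop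
  /-- Tate classes of codimension at most `N` -/
  | small {κ : Type} [Finite κ] (hκ : Even (Nat.card κ)) (hN : Nat.card κ ≤ 2 * N) (f : Coh X κ)
      (hf : IsTate q f) : Generated q N X κ f
  | zero (κ : Type) : Generated q N X κ 0
  | add {κ : Type} (f g : Coh X κ) (hf : Generated q N X κ f) (hg : Generated q N X κ g) :
      Generated q N X κ (f + g)
  | smul {κ : Type} (a : Ω) (f : Coh X κ) (hf : Generated q N X κ f) :
      Generated q N X κ (a • f)
  /-- renaming of the variables -/
  | reindex {κ κ' : Type} (e : κ ≃ κ') (f : Coh X κ) (hf : Generated q N X κ f) :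
      Generated q N X κ' (f.domDomCongr e)
  /-- cup products (up to a factor) -/
  | cup {κ κ' : Type} [Fintype κ] [DecidableEq κ] [Fintype κ'] [DecidableEq κ']
      (f : Coh X κ) (g : Coh X κ') (hf : Generated q N X κ f)
      (hg : Generated q N X κ' g) (h : Coh X (κ ⊕ κ'))
      (hh : ∀ v : κ ⊕ κ' → X.V, h v = ∑ σ : Equiv.Perm (κ ⊕ κ'), ((Equiv.Perm.sign σ : ℤ) : Ω) *
        (f (fun k => v (σ (Sum.inl k))) * g (fun k => v (σ (Sum.inr k))))) :
      Generated q N X (κ ⊕ κ') h

/-- The bound `(2 g) ^ 2 (2 g d) ^ g`, where `d` is the least common multiple of `1, ..., 2 g`. -/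
def bound (g : ℕ) : ℕ := (2 * g) ^ 2 * (2 * g * (Finset.Icc 1 (2 * g)).lcm id) ^ g

end Pool.Agent.K1H15.BC
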