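import Mathlib

/-!
# Short zero-sum subfamilies

`R` is a finite set with `ρ` elements, `w e` a family of integral functions on `R` with values
bounded by `a`.  Every finite family of elements of `R` on which all `w e` have sum zero has a nonempty
subfamily of size at most `ρ ^ 2 (ρ a) ^ r` with this property, where `r` is the rank of the family.
-/

set_option autoImplicit false

namespace Pool.Agent.K1H15.BC

open Finset

noncomputable section

variable {R E : Type} [Fintype R]

/-- Relations. -/
def Rl (w : E → R → ℤ) (n : R → ℚ) : Prop := ∀ e, ∑ i, (w e i : ℚ) * n i = 0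

theorem siegel_sup {α β : Type} [Fintype α] [Fintype β] (A : Matrix α β ℤ)
    (hn : Fintype.card α < Fintype.card β) {a ρ r : ℕ} (ha : 1 ≤ a) (hA : ∀ x i, |A x i| ≤ a)
    (hρ : Fintype.card β ≤ ρ) (hr : Fintype.card α ≤ r) :
    ∃ t : β → ℤ, t ≠ 0 ∧ (∀ x, ∑ i, A x i * t i = 0) ∧ ∀ i, |t i| ≤ ((ρ * a) ^ r : ℕ) := by
  classical
  rcases Nat.eq_zero_or_pos (Fintype.card α) with h0 | h0
  · have he : IsEmpty α := Fintype.card_eq_zero_iff.1 h0
    have hβ : 0 < Fintype.card β := by omega
    obtain ⟨i0⟩ := Fintype.card_pos_iff.1 hβ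
    refine ⟨Pi.single i0 1, fun h => ?_, fun x => isEmptyElim x, fun i => ?_⟩
    · have := congrFun h i0
      simp at this
    · have h1 : (1 : ℕ) ≤ (ρ * a) ^ r :=
        Nat.one_le_pow _ _ (Nat.mul_pos (by omega) (by omega))
      by_cases h : i = i0
      · subst h
        rw [Pi.single_eq_same, abs_one]
        exact_mod_cast h1
      · rw [Pi.single_eq_of_ne h, abs_zero]
        exact Nat.cast_nonneg _
  · obtain ⟨t, ht, hAt, hb⟩ := by
      letI := Matrix.seminormedAddCommGroup (m := α) (n := β) (α := ℤ)
      exact Int.Matrix.exists_ne_zero_int_vec_norm_le A hn h0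
    refine ⟨t, ht, fun x => ?_, fun i => ?_⟩
    · have := congrFun hAt x
      simpa [Matrix.mulVec, dotProduct] using this
    · have hnA : (letI := Matrix.seminormedAddCommGroup (m := α) (n := β) (α := ℤ); ‖A‖) ≤ (a : ℝ) := by
        letI := Matrix.seminormedAddCommGroup (m := α) (n := β) (α := ℤ)
        rw [Matrix.norm_le_iff (Nat.cast_nonneg a)]
        intro x i
        rw [Int.norm_eq_abs]
        exact_mod_cast hA x i
      have h1 : ‖t i‖ ≤ ‖t‖ := norm_le_pi_norm t i
      have ha' : (1 : ℝ) ≤ a := by exact_mod_cast ha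
      have hcard : (1 : ℝ) ≤ (Fintype.card β : ℝ) - Fintype.card α := by
        have : (Fintype.card α : ℝ) + 1 ≤ Fintype.card β := by exact_mod_cast hn
        linarith
      have hβ1 : (1 : ℝ) ≤ (Fintype.card β : ℝ) := by
        have : (0 : ℝ) ≤ Fintype.card α := Nat.cast_nonneg _
        linarith
      have hβρ : (Fintype.card β : ℝ) ≤ ρ := by exact_mod_cast hρ
      have key : ∀ x : ℝ, x ≤ a → ((Fintype.card β : ℝ) * max 1 x) ^
          ((Fintype.card α : ℝ) / ((Fintype.card β : ℝ) - Fintype.card α)) ≤
          ((ρ : ℝ) * a) ^ (r : ℝ) := by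
        intro x hx
        have hm1 : (1 : ℝ) ≤ max 1 x := le_max_left _ _
        have hm2 : max 1 x ≤ (a : ℝ) := max_le ha' hx
        have e1 : (Fintype.card α : ℝ) / ((Fintype.card β : ℝ) - Fintype.card α) ≤
            (r : ℝ) := by
          have e2 : (Fintype.card α : ℝ) / ((Fintype.card β : ℝ) - Fintype.card α) ≤
              Fintype.card α := div_le_self (Nat.cast_nonneg _) hcard
          have e3 : (Fintype.card α : ℝ) ≤ (r : ℝ) := by
            exact_mod_cast hr
          exact e2.trans e3
        have e4 : (1 : ℝ) ≤ (Fintype.card β : ℝ) * max 1 x := one_le_mul_of_one_le_of_one_le hβ1 hm1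
        refine (Real.rpow_le_rpow_of_exponent_le e4 e1).trans
          (Real.rpow_le_rpow (by linarith) ?_ (Nat.cast_nonneg _))
        exact mul_le_mul hβρ hm2 (by linarith) (by linarith)
      have h3 : ‖t‖ ≤ ((ρ : ℝ) * a) ^ (r : ℝ) := hb.trans (key _ hnA)
      rw [Real.rpow_natCast] at h3
      have h4 : ((|t i| : ℤ) : ℝ) ≤ (((ρ * a) ^ r : ℕ) : ℝ) := by
        push_cast
        rw [← Int.norm_eq_abs]
        exact h1.trans h3
      exact_mod_cast h4

/-- The rank of the family `w` is at most `r`. -/
def RankLe (w : E → R → ℤ) (r : ℕ) : Prop :=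
  ∀ (κ : Type) [Fintype κ] (c : κ → E), LinearIndependent ℚ (fun k i => (w (c k) i : ℚ)) →
    Fintype.card κ ≤ r

/-- The rank of a family of functions which are odd with respect to an involution. -/
theorem rankLe_of_odd (w : E → R → ℤ) (σ : R → R) (hσ : ∀ i, σ (σ i) = i)
    (hodd : ∀ e i, w e (σ i) = - w e i) {r : ℕ} (hr : Fintype.card R ≤ 2 * r) : RankLe w r := by
  classical
  intro κ _ c hli
  let f : R → ℕ := fun i => Fintype.equivFin R i
  have hf : Function.Injective f := fun i j h => (Fintype.equivFin R).injective (Fin.ext h)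
  let T : Type := {i : R // f i < f (σ i)}
  let φ : (R → ℚ) →ₗ[ℚ] (T → ℚ) := LinearMap.funLeft ℚ ℚ (Subtype.val : T → R)
  have hspan : ∀ x ∈ Submodule.span ℚ (Set.range (fun k i => (w (c k) i : ℚ))),
      ∀ i, x (σ i) = - x i := by
    intro x hx
    induction hx using Submodule.span_induction with
    | mem x hx =>
      obtain ⟨k, rfl⟩ := hx
      intro i
      beta_reduce
      rw [hodd]
      push_cast
      rfl
    | zero => intro i; simp
    | add x y _ _ h1 h2 => intro i; rw [Pi.add_apply, Pi.add_apply, h1, h2]; ring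
    | smul r x _ h1 => intro i; rw [Pi.smul_apply, Pi.smul_apply, h1]; simp
  have hli' : LinearIndependent ℚ (φ ∘ (fun k i => (w (c k) i : ℚ))) := by
    refine hli.map ?_
    rw [Submodule.disjoint_def]
    intro x hx hx'
    have h0 : ∀ i : T, x i.1 = 0 := fun i => congrFun (LinearMap.mem_ker.1 hx') i
    funext i
    rw [Pi.zero_apply]
    have h1 := hspan x hx i
    rcases lt_trichotomy (f i) (f (σ i)) with h | h | h
    · exact h0 ⟨i, h⟩
    · have h2 := hf h
      rw [← h2] at h1
      linarith
    · have h2 := h0 ⟨σ i, by rw [hσ]; exact h⟩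
      rw [show x (σ i) = 0 from h2] at h1
      linarith
  have h1 := hli'.fintype_card_le_finrank
  rw [Module.finrank_fintype_fun_eq_card] at h1
  have h2 : Fintype.card T + Fintype.card T ≤ Fintype.card R := by
    rw [← Fintype.card_sum]
    refine Fintype.card_le_of_injective (Sum.elim Subtype.val fun i : T => σ i.1) ?_
    rintro (i | i) (j | j) h
    · simp only [Sum.elim_inl] at h
      rw [Subtype.ext h]
    · simp only [Sum.elim_inl, Sum.elim_inr] at h
      exfalso
      have h3 := i.2
      have h4 := j.2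
      rw [h, hσ] at h3
      omega
    · simp only [Sum.elim_inl, Sum.elim_inr] at h
      exfalso
      have h3 := i.2
      have h4 := j.2
      rw [← h, hσ] at h4
      omega
    · simp only [Sum.elim_inr] at h
      have h3 := congrArg σ h
      rw [hσ, hσ] at h3
      rw [Subtype.ext h3]
  omega

/-- A bounded relation on the support of a nonzero nonnegative relation. -/
theorem rel_support (w : E → R → ℤ) {a r : ℕ} (ha : 1 ≤ a) (hw : ∀ e i, |w e i| ≤ a)
    (hr : RankLe w r) {n : R → ℚ} (hn : Rl w n) (hne : n ≠ 0) :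
    ∃ t : R → ℤ, t ≠ 0 ∧ Rl w (fun i => (t i : ℚ)) ∧ (∀ i, n i = 0 → t i = 0) ∧
      ∀ i, |t i| ≤ ((Fintype.card R * a) ^ r : ℕ) := by
  classical
  let S : Type := {i : R // n i ≠ 0}
  let v : E → (S → ℚ) := fun e i => (w e i.1 : ℚ)
  obtain ⟨κ, c, -, hspan, hli⟩ := exists_linearIndependent' ℚ v
  have hfin : Finite κ := hli.finite
  let _ : Fintype κ := Fintype.ofFinite κ
  have hsumS : ∀ f : R → ℚ, ∑ i : S, f i.1 * n i.1 = ∑ i, f i * n i := by
    intro f
    rw [← Finset.sum_subset (Finset.filter_subset (fun i => n i ≠ 0) Finset.univ)]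
    · rw [Finset.sum_subtype (p := fun i => n i ≠ 0) (Finset.univ.filter fun i => n i ≠ 0)
        (fun i => by simp) (fun i => f i * n i)]
    · intro i _ hi
      have : n i = 0 := by simpa using hi
      rw [this, mul_zero]
  have hperp : ∀ x ∈ Submodule.span ℚ (Set.range v), ∑ i : S, x i * n i.1 = 0 := by
    intro x hx
    induction hx using Submodule.span_induction with
    | mem x hx =>
      obtain ⟨e, rfl⟩ := hx
      have := hsumS (fun i => (w e i : ℚ))
      rw [hn e] at this
      exact this
    | zero => simp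
    | add x y _ _ h1 h2 => simp only [Pi.add_apply, add_mul, Finset.sum_add_distrib, h1, h2, add_zero]
    | smul r x _ h1 =>
      simp only [Pi.smul_apply, smul_eq_mul, mul_assoc, ← Finset.mul_sum, h1, mul_zero]
  have hle : Fintype.card κ ≤ Fintype.card S := by
    have := hli.fintype_card_le_finrank
    rwa [Module.finrank_fintype_fun_eq_card] at this
  have hlt : Fintype.card κ < Fintype.card S := by
    refine lt_of_le_of_ne hle fun h => ?_
    have htop := hli.span_eq_top_of_card_eq_finrank' (by
      rw [Module.finrank_fintype_fun_eq_card]; exact h)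
    rw [hspan] at htop
    have h1 := hperp (fun i => n i.1) (htop ▸ Submodule.mem_top)
    have h2 : ∀ i : S, n i.1 * n i.1 = 0 := fun i =>
      (Finset.sum_eq_zero_iff_of_nonneg (fun i _ => mul_self_nonneg (n i.1))).1 h1 i
        (Finset.mem_univ _)
    apply hne
    funext i
    by_contra hi
    exact hi (mul_self_eq_zero.1 (h2 ⟨i, hi⟩))
  have hκr : Fintype.card κ ≤ r := by
    refine hr κ c ?_
    refine LinearIndependent.of_comp (LinearMap.funLeft ℚ ℚ (Subtype.val : S → R)) ?_
    exact hli
  obtain ⟨t, ht, hrel, hb⟩ := siegel_sup (α := κ) (β := S) (fun x i => w (c x) i.1) hlt ha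
    (fun x i => hw _ _) (Fintype.card_subtype_le _) hκr
  have hperp' : ∀ x ∈ Submodule.span ℚ (Set.range v), ∑ i : S, x i * (t i : ℚ) = 0 := by
    intro x hx
    rw [← hspan] at hx
    induction hx using Submodule.span_induction with
    | mem x hx =>
      obtain ⟨k, rfl⟩ := hx
      have := hrel k
      have h2 : ((∑ i : S, w (c k) i.1 * t i : ℤ) : ℚ) = 0 := by rw [this]; rfl
      push_cast at h2
      exact h2
    | zero => simp
    | add x y _ _ h1 h2 => simp only [Pi.add_apply, add_mul, Finset.sum_add_distrib, h1, h2, add_zero]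
    | smul r x _ h1 =>
      simp only [Pi.smul_apply, smul_eq_mul, mul_assoc, ← Finset.mul_sum, h1, mul_zero]
  refine ⟨fun i => if h : n i ≠ 0 then t ⟨i, h⟩ else 0, ?_, ?_, ?_, ?_⟩
  · intro h
    apply ht
    funext i
    have := congrFun h i.1
    rw [dif_pos i.2] at this
    exact this
  · intro e
    have h1 := hperp' (v e) (Submodule.subset_span ⟨e, rfl⟩)
    refine Eq.trans ?_ h1
    rw [← Finset.sum_subset (Finset.filter_subset (fun i => n i ≠ 0) Finset.univ)]
    · rw [Finset.sum_subtype (p := fun i => n i ≠ 0) (Finset.univ.filter fun i => n i ≠ 0)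
        (fun i => by simp)]
      refine Finset.sum_congr rfl fun i _ => ?_
      beta_reduce
      rw [dif_pos i.2]
    · intro i _ hi
      have h3 : ¬ (n i ≠ 0) := by simpa using hi
      beta_reduce
      rw [dif_neg h3]
      simp
  · intro i hi
    exact dif_neg (by simpa using hi)
  · intro i
    beta_reduce
    by_cases h : n i ≠ 0
    · rw [dif_pos h]
      exact hb _
    · rw [dif_neg h, abs_zero]
      exact Nat.cast_nonneg _

/-- The bound `(ρ a) ^ r`. -/
def MM (ρ a r : ℕ) : ℕ := (ρ * a) ^ r

/-- A bounded nonnegative relation on the support. -/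
theorem rel_nonneg (w : E → R → ℤ) {a r : ℕ} (ha : 1 ≤ a) (hw : ∀ e i, |w e i| ≤ a)
    (hr : RankLe w r) (s : ℕ) :
    ∀ n : R → ℚ, Rl w n → n ≠ 0 → (∀ i, 0 ≤ n i) → #{i | n i ≠ 0} ≤ s →
    ∃ t : R → ℕ, t ≠ 0 ∧ Rl w (fun i => (t i : ℚ)) ∧ (∀ i, n i = 0 → t i = 0) ∧
      ∀ i, t i ≤ MM (Fintype.card R) a r := by
  classical
  induction s with
  | zero =>
    intro n _ hne _ hs
    exfalso
    apply hne
    funext i
    by_contra hi
    have : i ∈ (Finset.univ.filter fun i => n i ≠ 0) := by simpa using hi
    rw [Finset.card_eq_zero.1 (Nat.le_zero.1 hs)] at this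
    exact absurd this (Finset.notMem_empty _)
  | succ s ih =>
    intro n hn hne hpos hs
    obtain ⟨t, ht, htr, hts, htb⟩ := rel_support w ha hw hr hn hne
    -- sign
    obtain ⟨t, ht, htr, hts, htb, i1, hi1⟩ : ∃ t : R → ℤ, t ≠ 0 ∧ Rl w (fun i => (t i : ℚ)) ∧
        (∀ i, n i = 0 → t i = 0) ∧ (∀ i, |t i| ≤ (MM (Fintype.card R) a r : ℕ)) ∧ ∃ i, 0 < t i := by
      by_cases h : ∃ i, 0 < t i
      · exact ⟨t, ht, htr, hts, htb, h⟩
      · push Not at h
        refine ⟨-t, neg_ne_zero.2 ht, fun e => ?_, fun i hi => ?_, fun i => ?_, ?_⟩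
        · have := htr e
          simp only [Pi.neg_apply, Int.cast_neg, mul_neg, Finset.sum_neg_distrib, this, neg_zero]
        · rw [Pi.neg_apply, hts i hi, neg_zero]
        · rw [Pi.neg_apply, abs_neg]
          exact htb i
        · obtain ⟨i, hi⟩ := Function.ne_iff.1 ht
          refine ⟨i, ?_⟩
          have := h i
          rw [Pi.neg_apply]
          rw [Pi.zero_apply] at hi
          omega
    by_cases hneg : ∀ i, 0 ≤ t i
    · refine ⟨fun i => (t i).toNat, fun h => ht ?_, fun e => ?_, fun i hi => ?_, fun i => ?_⟩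
      · funext i
        have := congrFun h i
        simp only [Pi.zero_apply] at this
        have h2 := hneg i
        rw [Pi.zero_apply]
        omega
      · have := htr e
        rw [← this]
        refine Finset.sum_congr rfl fun i _ => ?_
        have h2 : ((t i).toNat : ℤ) = t i := Int.toNat_of_nonneg (hneg i)
        have h3 : (((t i).toNat : ℕ) : ℚ) = ((t i : ℤ) : ℚ) := by
          rw [← h2]
          push_cast
          rfl
        beta_reduce
        rw [h3]
      · beta_reduce
        rw [hts i hi]
        rfl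
      · have h1 := htb i
        rw [abs_of_nonneg (hneg i)] at h1
        beta_reduce
        omega
    · push Not at hneg
      obtain ⟨j, hj⟩ := hneg
      -- the smallest quotient
      have hPne : (Finset.univ.filter fun i => 0 < t i).Nonempty := ⟨i1, by simpa using hi1⟩
      obtain ⟨i0, hi0, hmin⟩ := Finset.exists_min_image _ (fun i => n i / (t i : ℚ)) hPne
      have hti0 : 0 < t i0 := by simpa using hi0
      set c : ℚ := n i0 / (t i0 : ℚ) with hc
      have hti0' : (0 : ℚ) < t i0 := by exact_mod_cast hti0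
      have hc0 : 0 ≤ c := div_nonneg (hpos i0) hti0'.le
      let n' : R → ℚ := fun i => n i - c * t i
      have hn'rel : Rl w n' := by
        intro e
        have h1 := hn e
        have h2 := htr e
        have h3 : ∑ i, (w e i : ℚ) * n' i = ∑ i, (w e i : ℚ) * n i - c * ∑ i, (w e i : ℚ) * t i := by
          rw [Finset.mul_sum, ← Finset.sum_sub_distrib]
          refine Finset.sum_congr rfl fun i _ => ?_
          simp only [n']
          ring
        rw [h3, h1, h2]
        ring
      have hn'pos : ∀ i, 0 ≤ n' i := by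
        intro i
        by_cases hi : 0 < t i
        · have h1 := hmin i (by simpa using hi)
          have hi' : (0 : ℚ) < t i := by exact_mod_cast hi
          have h2 : c * t i ≤ n i := by
            have := (le_div_iff₀ hi').1 h1
            exact this
          simp only [n']
          linarith
        · have hi' : (t i : ℚ) ≤ 0 := by
            have : t i ≤ 0 := not_lt.1 hi
            exact_mod_cast this
          have h2 : c * t i ≤ 0 := mul_nonpos_of_nonneg_of_nonpos hc0 hi'
          have h3 := hpos i
          simp only [n']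
          linarith
      have hn'ne : n' ≠ 0 := by
        intro h
        have h1 := congrFun h j
        simp only [n', Pi.zero_apply] at h1
        have hnj : 0 < n j := by
          refine lt_of_le_of_ne (hpos j) fun h => ?_
          have := hts j h.symm
          omega
        have hj' : (t j : ℚ) < 0 := by exact_mod_cast hj
        have h2 : c * t j ≤ 0 := mul_nonpos_of_nonneg_of_nonpos hc0 hj'.le
        linarith
      have hn'sup : ∀ i, n i = 0 → n' i = 0 := by
        intro i hi
        simp only [n', hi, hts i hi, Int.cast_zero, mul_zero, sub_zero]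
      have hn'i0 : n' i0 = 0 := by
        simp only [n', hc]
        field_simp
        ring
      have hi0n : n i0 ≠ 0 := fun h => by
        have := hts i0 h
        omega
      have hcard : #{i | n' i ≠ 0} < #{i | n i ≠ 0} := by
        apply Finset.card_lt_card
        refine ⟨fun i hi => ?_, fun h => ?_⟩
        · simp only [Finset.mem_filter, Finset.mem_univ, true_and] at hi ⊢
          exact fun h => hi (hn'sup i h)
        · have h1 : i0 ∈ (Finset.univ.filter fun i => n i ≠ 0) := by simpa using hi0n
          have h2 := h h1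
          simp only [Finset.mem_filter, Finset.mem_univ, true_and] at h2
          exact h2 hn'i0
      obtain ⟨t', h1, h2, h3, h4⟩ := ih n' hn'rel hn'ne hn'pos (by omega)
      exact ⟨t', h1, h2, fun i hi => h3 i (hn'sup i hi), h4⟩

/-- Large nonnegative relations dominate a bounded integral one. -/
theorem rel_le (w : E → R → ℤ) {a r : ℕ} (ha : 1 ≤ a) (hw : ∀ e i, |w e i| ≤ a)
    (hr : RankLe w r) (s : ℕ) :
    ∀ n : R → ℚ, Rl w n → (∀ i, 0 ≤ n i) → #{i | n i ≠ 0} ≤ s →
    (s * (Fintype.card R * MM (Fintype.card R) a r) : ℚ) < ∑ i, n i →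
    ∃ t : R → ℕ, t ≠ 0 ∧ Rl w (fun i => (t i : ℚ)) ∧ (∀ i, (t i : ℚ) ≤ n i) ∧
      ∀ i, t i ≤ MM (Fintype.card R) a r := by
  classical
  induction s with
  | zero =>
    intro n _ _ hs hlt
    exfalso
    have h0 : ∀ i, n i = 0 := by
      intro i
      by_contra hi
      have : i ∈ (Finset.univ.filter fun i => n i ≠ 0) := by simpa using hi
      rw [Finset.card_eq_zero.1 (Nat.le_zero.1 hs)] at this
      exact absurd this (Finset.notMem_empty _)
    simp [h0] at hlt
  | succ s ih =>
    intro n hn hpos hs hlt
    have hne : n ≠ 0 := by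
      intro h
      rw [h] at hlt
      simp only [Pi.zero_apply, Finset.sum_const_zero] at hlt
      have : (0 : ℚ) ≤ ((s + 1 : ℕ) : ℚ) * (Fintype.card R * MM (Fintype.card R) a r) := by positivity
      linarith
    obtain ⟨t, ht, htr, hts, htb⟩ := rel_nonneg w ha hw hr _ n hn hne hpos le_rfl
    by_cases hle : ∀ i, (t i : ℚ) ≤ n i
    · exact ⟨t, ht, htr, hle, htb⟩
    · push Not at hle
      obtain ⟨j, hj⟩ := hle
      obtain ⟨i1, hi1⟩ := Function.ne_iff.1 ht
      rw [Pi.zero_apply] at hi1
      have hPne : (Finset.univ.filter fun i => t i ≠ 0).Nonempty := ⟨i1, by simpa using hi1⟩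
      obtain ⟨i0, hi0, hmin⟩ := Finset.exists_min_image _ (fun i => n i / (t i : ℚ)) hPne
      have hti0 : t i0 ≠ 0 := by simpa using hi0
      set c : ℚ := n i0 / (t i0 : ℚ) with hc
      have hti0' : (0 : ℚ) < t i0 := by exact_mod_cast Nat.pos_of_ne_zero hti0
      have hc0 : 0 ≤ c := div_nonneg (hpos i0) hti0'.le
      have htj : t j ≠ 0 := by
        intro h
        rw [h] at hj
        have := hpos j
        push_cast at hj
        linarith
      have hc1 : c < 1 := by
        have h1 := hmin j (by simpa using htj)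
        have htj' : (0 : ℚ) < t j := by exact_mod_cast Nat.pos_of_ne_zero htj
        exact lt_of_le_of_lt h1 ((div_lt_one htj').2 hj)
      let n' : R → ℚ := fun i => n i - c * t i
      have hn'rel : Rl w n' := by
        intro e
        have h1 := hn e
        have h2 := htr e
        have h3 : ∑ i, (w e i : ℚ) * n' i = ∑ i, (w e i : ℚ) * n i - c * ∑ i, (w e i : ℚ) * t i := by
          rw [Finset.mul_sum, ← Finset.sum_sub_distrib]
          refine Finset.sum_congr rfl fun i _ => ?_
          simp only [n']
          ring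
        rw [h3, h1, h2]
        ring
      have hn'pos : ∀ i, 0 ≤ n' i := by
        intro i
        by_cases hi : t i = 0
        · simp only [n', hi, Nat.cast_zero, mul_zero, sub_zero]
          exact hpos i
        · have h1 := hmin i (by simpa using hi)
          have hi' : (0 : ℚ) < t i := by exact_mod_cast Nat.pos_of_ne_zero hi
          have h2 : c * t i ≤ n i := (le_div_iff₀ hi').1 h1
          simp only [n']
          linarith
      have hn'sup : ∀ i, n i = 0 → n' i = 0 := by
        intro i hi
        simp only [n', hi, hts i hi, Nat.cast_zero, mul_zero, sub_zero]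
      have hn'i0 : n' i0 = 0 := by
        simp only [n', hc]
        field_simp
        ring
      have hi0n : n i0 ≠ 0 := fun h => hti0 (hts i0 h)
      have hcard : #{i | n' i ≠ 0} < #{i | n i ≠ 0} := by
        apply Finset.card_lt_card
        refine ⟨fun i hi => ?_, fun h => ?_⟩
        · simp only [Finset.mem_filter, Finset.mem_univ, true_and] at hi ⊢
          exact fun h => hi (hn'sup i h)
        · have h1 : i0 ∈ (Finset.univ.filter fun i => n i ≠ 0) := by simpa using hi0n
          have h2 := h h1
          simp only [Finset.mem_filter, Finset.mem_univ, true_and] at h2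
          exact h2 hn'i0
      have hsum : (s * (Fintype.card R * MM (Fintype.card R) a r) : ℚ) < ∑ i, n' i := by
        have h1 : ∑ i, n' i = ∑ i, n i - c * ∑ i, (t i : ℚ) := by
          rw [Finset.mul_sum, ← Finset.sum_sub_distrib]
        have h2 : ∑ i, (t i : ℚ) ≤ Fintype.card R * MM (Fintype.card R) a r := by
          calc ∑ i, (t i : ℚ) ≤ ∑ _i : R, (MM (Fintype.card R) a r : ℚ) :=
                Finset.sum_le_sum fun i _ => by exact_mod_cast htb i
            _ = _ := by rw [Finset.sum_const, Finset.card_univ, nsmul_eq_mul]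
        have h3 : (0 : ℚ) ≤ ∑ i, (t i : ℚ) := Finset.sum_nonneg fun i _ => Nat.cast_nonneg _
        have h4 : c * ∑ i, (t i : ℚ) ≤ Fintype.card R * MM (Fintype.card R) a r := by nlinarith
        push_cast at hlt
        rw [h1]
        linarith
      obtain ⟨t', h1, h2, h3, h4⟩ := ih n' hn'rel hn'pos (by omega) hsum
      refine ⟨t', h1, h2, fun i => (h3 i).trans ?_, h4⟩
      simp only [n']
      have : 0 ≤ c * (t i : ℚ) := mul_nonneg hc0 (Nat.cast_nonneg _)
      linarith

/-- The bound `ρ ^ 2 (ρ a) ^ r`. -/
def BB (ρ a r : ℕ) : ℕ := ρ * (ρ * MM ρ a r)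

/-- Short zero-sum subfamilies. -/
theorem exists_short {K : Type} [Fintype K] [Nonempty K] (w : E → R → ℤ) {a r : ℕ} (ha : 1 ≤ a)
    (hw : ∀ e i, |w e i| ≤ a) (hr : RankLe w r) (μ : K → R) (h : ∀ e, ∑ k, w e (μ k) = 0) :
    ∃ S : Finset K, S.Nonempty ∧ (∀ e, ∑ k ∈ S, w e (μ k) = 0) ∧
      S.card ≤ BB (Fintype.card R) a r := by
  classical
  let n : R → ℕ := fun i => #{k | μ k = i}
  have hsum : ∀ (S : Finset K) (f : R → ℤ), ∑ k ∈ S, f (μ k) = ∑ i, (#{k ∈ S | μ k = i} : ℤ) * f i := by
    intro S f
    rw [← Finset.sum_fiberwise S μ (fun k => f (μ k))]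
    refine Finset.sum_congr rfl fun i _ => ?_
    rw [Finset.sum_congr rfl (g := fun _ => f i) (fun k hk => by rw [(Finset.mem_filter.1 hk).2]),
      Finset.sum_const, nsmul_eq_mul]
  have hn : Rl w (fun i => (n i : ℚ)) := by
    intro e
    have h1 := h e
    rw [hsum] at h1
    have h2 : ((∑ i, (#{k ∈ Finset.univ | μ k = i} : ℤ) * w e i : ℤ) : ℚ) = 0 := by
      rw [h1]; rfl
    push_cast at h2
    rw [← h2]
    exact Finset.sum_congr rfl fun i _ => mul_comm _ _
  by_cases hbig : BB (Fintype.card R) a r < Fintype.card K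
  · have hcard : ∑ i, (n i : ℚ) = Fintype.card K := by
      have h1 : ∑ i, n i = Fintype.card K := by
        rw [← Finset.card_univ, Finset.card_eq_sum_card_fiberwise (f := μ) (t := Finset.univ)
          (fun k _ => Finset.mem_univ _)]
      exact_mod_cast h1
    obtain ⟨t, ht, htr, htn, htb⟩ := rel_le w ha hw hr (Fintype.card R) (fun i => (n i : ℚ)) hn
      (fun i => Nat.cast_nonneg _) (Finset.card_le_univ _) (by
        rw [hcard]
        unfold BB at hbig
        exact_mod_cast hbig)
    have hsub : ∀ i, ∃ T ⊆ (Finset.univ.filter fun k => μ k = i), T.card = t i := fun i =>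
      Finset.exists_subset_card_eq (by exact_mod_cast htn i)
    choose T hT hTc using hsub
    let S : Finset K := Finset.univ.biUnion T
    have hS : ∀ i, (S.filter fun k => μ k = i) = T i := by
      intro i
      ext k
      simp only [S, Finset.mem_filter, Finset.mem_biUnion, Finset.mem_univ, true_and]
      constructor
      · rintro ⟨⟨i', hi'⟩, hk⟩
        have h1 := hT i' hi'
        simp only [Finset.mem_filter, Finset.mem_univ, true_and] at h1
        rw [← hk, h1]
        exact hi'
      · intro hk
        have h1 := hT i hk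
        simp only [Finset.mem_filter, Finset.mem_univ, true_and] at h1
        exact ⟨⟨i, hk⟩, h1⟩
    refine ⟨S, ?_, fun e => ?_, ?_⟩
    · obtain ⟨i, hi⟩ := Function.ne_iff.1 ht
      rw [Pi.zero_apply] at hi
      have h1 : (T i).Nonempty := Finset.card_pos.1 (by rw [hTc]; exact Nat.pos_of_ne_zero hi)
      obtain ⟨k, hk⟩ := h1
      exact ⟨k, Finset.mem_biUnion.2 ⟨i, Finset.mem_univ _, hk⟩⟩
    · rw [hsum]
      have h1 := htr e
      have h2 : ((∑ i, (#{k ∈ S | μ k = i} : ℤ) * w e i : ℤ) : ℚ) = 0 := by
        push_cast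
        rw [← h1]
        refine Finset.sum_congr rfl fun i _ => ?_
        rw [hS, hTc, mul_comm]
      exact_mod_cast h2
    · have h1 : S.card = ∑ i, t i := by
        rw [Finset.card_eq_sum_card_fiberwise (f := μ) (t := Finset.univ)
          (fun k _ => Finset.mem_univ _)]
        refine Finset.sum_congr rfl fun i _ => ?_
        rw [hS, hTc]
      rw [h1]
      calc ∑ i, t i ≤ ∑ _i : R, MM (Fintype.card R) a r := Finset.sum_le_sum fun i _ => htb i
        _ = Fintype.card R * MM (Fintype.card R) a r := by
          rw [Finset.sum_const, Finset.card_univ, smul_eq_mul]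
        _ ≤ BB (Fintype.card R) a r := by
          unfold BB
          have : 1 ≤ Fintype.card R := by
            obtain ⟨k⟩ := ‹Nonempty K›
            exact Fintype.card_pos_iff.2 ⟨μ k⟩
          exact Nat.le_mul_of_pos_left _ this
  · refine ⟨Finset.univ, Finset.univ_nonempty, h, ?_⟩
    rw [Finset.card_univ]
    omega

/-- Short zero-sum subfamilies of even size. -/
theorem exists_short_even {K : Type} [Fintype K] [Nonempty K] (w : E → R → ℤ) {a r : ℕ} (ha : 1 ≤ a)
    (hw : ∀ e i, |w e i| ≤ a) (hr : RankLe w r) (μ : K → R) (h : ∀ e, ∑ k, w e (μ k) = 0)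
    (hev : Even (Fintype.card K)) :
    ∃ S : Finset K, S.Nonempty ∧ Even S.card ∧ (∀ e, ∑ k ∈ S, w e (μ k) = 0) ∧
      S.card ≤ 2 * BB (Fintype.card R) a r := by
  classical
  obtain ⟨S, hS1, hS2, hS3⟩ := exists_short w ha hw hr μ h
  by_cases hSe : Even S.card
  · exact ⟨S, hS1, hSe, hS2, by omega⟩
  have hrest : ∀ e, ∑ k : {k // k ∉ S}, w e (μ k) = 0 := by
    intro e
    have h2 := h e
    rw [← Finset.sum_compl_add_sum S, hS2 e, add_zero] at h2
    rw [← h2]
    exact (Finset.sum_subtype Sᶜ (fun k => Finset.mem_compl) (fun k => w e (μ k))).symm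
  have hne' : Nonempty {k // k ∉ S} := by
    by_contra hcon
    have h3 : S = Finset.univ := Finset.eq_univ_iff_forall.2 fun k => by
      by_contra hk
      exact hcon ⟨⟨k, hk⟩⟩
    rw [h3, Finset.card_univ] at hSe
    exact hSe hev
  obtain ⟨S₁, h1, h2, h3⟩ := exists_short w ha hw hr (fun k : {k // k ∉ S} => μ k) hrest
  let S' : Finset K := S₁.map (Function.Embedding.subtype _)
  have hS'sum : ∀ e, ∑ k ∈ S', w e (μ k) = 0 := by
    intro e
    rw [← h2 e, Finset.sum_map]
    rfl
  have hS'card : S'.card = S₁.card := Finset.card_map _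
  by_cases hS'e : Even S'.card
  · exact ⟨S', h1.map, hS'e, hS'sum, by omega⟩
  · have hdis : Disjoint S S' := by
      rw [Finset.disjoint_right]
      intro k hk
      obtain ⟨k₁, hk₁, rfl⟩ := Finset.mem_map.1 hk
      exact k₁.2
    refine ⟨S ∪ S', hS1.mono Finset.subset_union_left, ?_, fun e => ?_, ?_⟩
    · rw [Finset.card_union_of_disjoint hdis]
      rw [Nat.not_even_iff_odd] at hSe hS'e
      exact hSe.add_odd hS'e
    · rw [Finset.sum_union hdis, hS2, hS'sum, add_zero]
    · rw [Finset.card_union_of_disjoint hdis]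
      omega

theorem BB_mono {ρ ρ' : ℕ} (h : ρ ≤ ρ') {a r : ℕ} : BB ρ a r ≤ BB ρ' a r := by
  unfold BB MM
  exact Nat.mul_le_mul h (Nat.mul_le_mul h (Nat.pow_le_pow_left (Nat.mul_le_mul_right a h) _))

end

end Pool.Agent.K1H15.BC
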