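import Mathlib
import Pool.Agent.H485R3.Exact.ExoticMain
import Pool.Agent.H485R3.Group
import Pool.Agent.K1H15.BC.Zs
import Pool.Agent.K1H15.BC.Defs

/-!
# Multiplicative relations between the roots of a Frobenius polynomial
-/

set_option autoImplicit false

namespace Pool.Agent.K1H15.BC

open Polynomial

noncomputable section

variable {p m g : ℕ} [hp : Fact p.Prime] {P : ℤ[X]}

/-- The common denominator. -/
def dd (g : ℕ) : ℕ := (Finset.Icc 1 (2 * g)).lcm id

theorem dd_pos (g : ℕ) : 0 < dd g := by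
  refine Nat.pos_of_ne_zero fun h => ?_
  rw [dd, Finset.lcm_eq_zero_iff] at h
  obtain ⟨x, hx, h0⟩ := h
  have := (Finset.mem_Icc.1 hx).1
  simp only [id] at h0
  omega

theorem log_p : Real.log ‖(p : PadicAlgCl p)‖ = - Real.log p := by
  rw [Pool.Agent.H485R3.Exact.norm_p_padic, Real.log_inv]

/-- The integral slopes. -/
theorem exists_slope (hP : IsFrobeniusPolynomial p m g P) (z : PadicAlgCl p) (hz : aeval z P = 0) :
    ∃ u : ℤ, |u| ≤ dd g ∧
      (dd g : ℝ) * (2 * Real.log ‖z‖ + m * Real.log p) = -(u * (m * Real.log p)) := by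
  obtain ⟨a, b, hab, hb, hb2, h⟩ := hP.slopes z hz
  obtain ⟨c, hc⟩ : b ∣ dd g := Finset.dvd_lcm (f := id) (Finset.mem_Icc.2 ⟨hb, hb2⟩)
  refine ⟨(c : ℤ) * (2 * a - b), ?_, ?_⟩
  · rw [abs_mul, hc]
    have h1 : |(2 * a - b : ℤ)| ≤ b := by
      rw [abs_le]
      constructor <;> omega
    have h2 : |(c : ℤ)| = c := abs_of_nonneg (Nat.cast_nonneg _)
    rw [h2]
    push_cast
    rw [mul_comm (b : ℤ)]
    exact mul_le_mul_of_nonneg_left h1 (Nat.cast_nonneg _)
  · have h1 := congrArg Real.log h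
    rw [Real.log_pow, Real.log_inv, Real.log_pow] at h1
    rw [hc]
    push_cast at h1 ⊢
    linear_combination 2 * (c : ℝ) * h1

/-- The integral slope of a root. -/
def slope (hP : IsFrobeniusPolynomial p m g P) (z : PadicAlgCl p) (hz : aeval z P = 0) : ℤ :=
  (exists_slope hP z hz).choose

theorem slope_abs (hP : IsFrobeniusPolynomial p m g P) (z : PadicAlgCl p) (hz : aeval z P = 0) :
    |slope hP z hz| ≤ dd g := (exists_slope hP z hz).choose_spec.1

theorem slope_log (hP : IsFrobeniusPolynomial p m g P) (z : PadicAlgCl p) (hz : aeval z P = 0) :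
    (dd g : ℝ) * (2 * Real.log ‖z‖ + m * Real.log p) = -(slope hP z hz * (m * Real.log p)) :=
  (exists_slope hP z hz).choose_spec.2

variable {L : Type} [Field L] [Algebra ℚ L] [FiniteDimensional ℚ L] [Normal ℚ L]

/-- The roots in `L`. -/
abbrev Rt (P : ℤ[X]) (L : Type) [Field L] : Type := {x : L // aeval x P = 0}

omit [Algebra ℚ L] [FiniteDimensional ℚ L] [Normal ℚ L] in
theorem aeval_hom {S : Type*} [CommRing S] (e : L →+* S) {x : L} (hx : aeval x P = 0) :
    aeval (e x) P = 0 := by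
  have h := Polynomial.aeval_algHom_apply e.toIntAlgHom x P
  rw [hx, map_zero] at h
  exact h

/-- The rows. -/
def row (hP : IsFrobeniusPolynomial p m g P) (e : L →ₐ[ℚ] PadicAlgCl p) (x : Rt P L) : ℤ :=
  slope hP (e x.1) (aeval_hom (e : L →+* PadicAlgCl p) x.2)

omit [FiniteDimensional ℚ L] [Normal ℚ L] in
theorem root_ne_zero (hP : IsFrobeniusPolynomial p m g P) (j : L →ₐ[ℚ] ℂ) (x : Rt P L) :
    x.1 ≠ 0 := by
  intro h
  have h1 := hP.weil (j x.1) (aeval_hom (j : L →+* ℂ) x.2)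
  rw [h, map_zero, norm_zero] at h1
  have h2 : (0 : ℝ) < (p : ℝ) ^ m := pow_pos (by exact_mod_cast hp.out.pos) _
  norm_num at h1
  linarith

omit [FiniteDimensional ℚ L] [Normal ℚ L] in
/-- The dual root. -/
theorem dual_root (hP : IsFrobeniusPolynomial p m g P) (j : L →ₐ[ℚ] ℂ) (x : Rt P L) :
    aeval (((p ^ m : ℕ) : L) / x.1) P = 0 := by
  have h1 := hP.weil (j x.1) (aeval_hom (j : L →+* ℂ) x.2)
  have h2 : j (((p ^ m : ℕ) : L) / x.1) = (starRingEnd ℂ) (j x.1) := by
    rw [map_div₀, map_natCast]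
    have h3 : j x.1 ≠ 0 := (map_ne_zero j).2 (root_ne_zero hP j x)
    rw [div_eq_iff h3, mul_comm, Complex.mul_conj, Complex.normSq_eq_norm_sq, h1]
    push_cast
    rfl
  have h3 : aeval ((starRingEnd ℂ) (j x.1)) P = 0 := by
    have h4 := Polynomial.aeval_algHom_apply (starRingEnd ℂ).toIntAlgHom (j x.1) P
    have h0 : aeval (j x.1) P = 0 := aeval_hom (j : L →+* ℂ) x.2
    rw [h0, map_zero] at h4
    exact h4
  rw [← h2] at h3
  have h5 := Polynomial.aeval_algHom_apply (j : L →+* ℂ).toIntAlgHom (((p ^ m : ℕ) : L) / x.1) P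
  have h6 : j (aeval (((p ^ m : ℕ) : L) / x.1) P) = 0 := h5.symm.trans h3
  exact (map_eq_zero j).1 h6

/-- The involution on the roots. -/
def dual (hP : IsFrobeniusPolynomial p m g P) (j : L →ₐ[ℚ] ℂ) (x : Rt P L) : Rt P L :=
  ⟨((p ^ m : ℕ) : L) / x.1, dual_root hP j x⟩

theorem dual_dual (hP : IsFrobeniusPolynomial p m g P) (j : L →ₐ[ℚ] ℂ) (x : Rt P L) :
    dual hP j (dual hP j x) = x := by
  apply Subtype.ext
  change ((p ^ m : ℕ) : L) / (((p ^ m : ℕ) : L) / x.1) = x.1
  have h1 := root_ne_zero hP j x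
  have hc : CharZero L := algebraRat.charZero L
  have h2 : ((p ^ m : ℕ) : L) ≠ 0 := by exact_mod_cast (pow_pos hp.out.pos m).ne'
  field_simp

theorem row_dual (hm : 0 < m) (hP : IsFrobeniusPolynomial p m g P) (j : L →ₐ[ℚ] ℂ)
    (e : L →ₐ[ℚ] PadicAlgCl p) (x : Rt P L) : row hP e (dual hP j x) = - row hP e x := by
  have hlogp : 0 < Real.log p := Real.log_pos (by exact_mod_cast hp.out.one_lt)
  have h1 := slope_log hP (e x.1) (aeval_hom (e : L →+* PadicAlgCl p) x.2)
  have h2 := slope_log hP (e (dual hP j x).1) (aeval_hom (e : L →+* PadicAlgCl p) (dual hP j x).2)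
  have h3 : Real.log ‖e (dual hP j x).1‖ = - (m * Real.log p) - Real.log ‖e x.1‖ := by
    change Real.log ‖e (((p ^ m : ℕ) : L) / x.1)‖ = _
    rw [map_div₀, map_natCast, norm_div, Real.log_div]
    · push_cast
      rw [norm_pow, Real.log_pow, log_p]
      ring
    · rw [norm_ne_zero_iff]
      exact_mod_cast (pow_pos hp.out.pos m).ne'
    · rw [norm_ne_zero_iff]
      exact (map_ne_zero e).2 (root_ne_zero hP j x)
  rw [h3] at h2
  have h4 : ((row hP e (dual hP j x) : ℝ) + row hP e x) * (m * Real.log p) = 0 := by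
    unfold row
    linear_combination h1 + h2
  have h5 : (m * Real.log p : ℝ) ≠ 0 := mul_ne_zero (by exact_mod_cast hm.ne') hlogp.ne'
  have h6 := (mul_eq_zero.1 h4).resolve_right h5
  have h7 : row hP e (dual hP j x) + row hP e x = 0 := by exact_mod_cast h6
  omega

theorem log_prod (hP : IsFrobeniusPolynomial p m g P) (j : L →ₐ[ℚ] ℂ) {K : Type} [Fintype K]
    (μ : K → Rt P L) (e : L →ₐ[ℚ] PadicAlgCl p) :
    (dd g : ℝ) * (2 * Real.log ‖e (∏ k, (μ k).1)‖ + Fintype.card K * (m * Real.log p)) =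
      - ((∑ k, row hP e (μ k) : ℤ) * (m * Real.log p)) := by
  have h2 : Real.log ‖e (∏ k, (μ k).1)‖ = ∑ k, Real.log ‖e (μ k).1‖ := by
    rw [map_prod, norm_prod, Real.log_prod]
    intro k _
    exact norm_ne_zero_iff.2 ((map_ne_zero e).2 (root_ne_zero hP j (μ k)))
  have h3 : ∀ k, (dd g : ℝ) * (2 * Real.log ‖e (μ k).1‖ + m * Real.log p) =
      -(row hP e (μ k) * (m * Real.log p)) := fun k => slope_log hP _ _
  rw [h2]
  push_cast
  have h4 := Finset.sum_congr rfl (fun k (_ : k ∈ (Finset.univ : Finset K)) => h3 k)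
  rw [← Finset.mul_sum, Finset.sum_add_distrib, ← Finset.mul_sum, Finset.sum_const,
    Finset.card_univ, nsmul_eq_mul, Finset.sum_neg_distrib, ← Finset.sum_mul] at h4
  exact h4

theorem sum_of_rel (hm : 0 < m) (hP : IsFrobeniusPolynomial p m g P) (j : L →ₐ[ℚ] ℂ) {K : Type}
    [Fintype K] (μ : K → Rt P L) {s : ℕ} (hs : 0 < s)
    (hrel : (∏ k, (μ k).1) ^ (2 * s) = ((p ^ m : ℕ) : L) ^ (s * Fintype.card K))
    (e : L →ₐ[ℚ] PadicAlgCl p) : ∑ k, row hP e (μ k) = 0 := by
  have hlogp : 0 < Real.log p := Real.log_pos (by exact_mod_cast hp.out.one_lt)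
  have h1 := log_prod hP j μ e
  have h2 := congrArg (fun x => Real.log ‖e x‖) hrel
  simp only [map_pow, norm_pow, Real.log_pow, map_natCast] at h2
  have h3 : Real.log ‖((p ^ m : ℕ) : PadicAlgCl p)‖ = - (m * Real.log p) := by
    push_cast
    rw [norm_pow, Real.log_pow, log_p]
    ring
  rw [h3] at h2
  have hs' : (s : ℝ) ≠ 0 := by exact_mod_cast hs.ne'
  have h4 : (s : ℝ) * (2 * Real.log ‖e (∏ k, (μ k).1)‖ + Fintype.card K * (m * Real.log p)) = 0 := by
    push_cast at h2
    linear_combination h2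
  have h5 := (mul_eq_zero.1 h4).resolve_left hs'
  rw [h5, mul_zero] at h1
  have h6 : (m * Real.log p : ℝ) ≠ 0 := mul_ne_zero (by exact_mod_cast hm.ne') hlogp.ne'
  have h7 := (mul_eq_zero.1 (neg_eq_zero.1 h1.symm)).resolve_right h6
  exact_mod_cast h7

theorem rel_of_sum (hP : IsFrobeniusPolynomial p m g P) (j : L →ₐ[ℚ] ℂ) {K : Type}
    [Fintype K] (μ : K → Rt P L)
    (hsum : ∀ e : L →ₐ[ℚ] PadicAlgCl p, ∑ k, row hP e (μ k) = 0) :
    ∃ s : ℕ, 0 < s ∧
      (∏ k, (μ k).1) ^ (2 * s) = ((p ^ m : ℕ) : L) ^ (s * Fintype.card K) := by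
  have hc : CharZero L := algebraRat.charZero L
  have hp0 : (0 : ℝ) < p := by exact_mod_cast hp.out.pos
  have hq0 : ((p ^ m : ℕ) : L) ≠ 0 := by exact_mod_cast (pow_pos hp.out.pos m).ne'
  have hint : ∀ x : Rt P L, IsIntegral ℤ x.1 := fun x => ⟨P, hP.monic, x.2⟩
  obtain ⟨s, hs, hz⟩ : ∃ s : ℕ, 0 < s ∧
      ((∏ k, (μ k).1) ^ 2 / ((p ^ m : ℕ) : L) ^ (Fintype.card K)) ^ s = 1 := by
    apply Pool.Agent.H485R3.Exact.root_of_unity
    · intro l _ e
      apply le_of_eq
      rw [map_div₀, map_pow, map_pow, norm_div, norm_pow, norm_pow, map_natCast]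
      by_cases hl : l = p
      · subst hl
        have h1 := log_prod hP j μ e
        rw [hsum e, Int.cast_zero, zero_mul, neg_zero] at h1
        have hd : (dd g : ℝ) ≠ 0 := by exact_mod_cast (dd_pos g).ne'
        have h1' := (mul_eq_zero.1 h1).resolve_left hd
        have hne : (∏ k, (μ k).1) ≠ 0 := Finset.prod_ne_zero_iff.2 fun k _ => root_ne_zero hP j (μ k)
        have h2 : 0 < ‖e (∏ k, (μ k).1)‖ := norm_pos_iff.2 ((map_ne_zero e).2 hne)
        have h3 : Real.log ‖((l ^ m : ℕ) : PadicAlgCl l)‖ = - (m * Real.log l) := by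
          push_cast
          rw [norm_pow, Real.log_pow, log_p]
          ring
        have h4 : 0 < ‖((l ^ m : ℕ) : PadicAlgCl l)‖ :=
          norm_pos_iff.2 (by exact_mod_cast (pow_pos hp.out.pos m).ne')
        have h5 : Real.log (‖e (∏ k, (μ k).1)‖ ^ 2) =
            Real.log (‖((l ^ m : ℕ) : PadicAlgCl l)‖ ^ Fintype.card K) := by
          rw [Real.log_pow, Real.log_pow, h3]
          push_cast
          linarith
        rw [Real.log_injOn_pos (Set.mem_Ioi.2 (pow_pos h2 2))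
          (Set.mem_Ioi.2 (pow_pos h4 (Fintype.card K))) h5, div_self (pow_pos h4 _).ne']
      · have h2 : ‖((p ^ m : ℕ) : PadicAlgCl l)‖ = 1 := by
          push_cast
          have h4 : (p : PadicAlgCl l) = algebraMap ℚ_[l] (PadicAlgCl l) (p : ℚ_[l]) := by simp
          rw [norm_pow, h4, PadicAlgCl.norm_extends,
            Padic.norm_natCast_eq_one_iff.2 ((Nat.coprime_primes (Fact.out : l.Prime) hp.out).2 hl),
            one_pow]
        have h1 : ∀ x : Rt P L, ‖e x.1‖ = 1 := by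
          intro x
          have h3 : ‖e x.1‖ ≤ 1 := Pool.Agent.H485R3.norm_le_one_of_isIntegral l _
            ((hint x).map (e : L →+* PadicAlgCl l).toIntAlgHom)
          have h4 : ‖e (dual hP j x).1‖ ≤ 1 := Pool.Agent.H485R3.norm_le_one_of_isIntegral l _
            ((hint (dual hP j x)).map (e : L →+* PadicAlgCl l).toIntAlgHom)
          have h5 : x.1 * (dual hP j x).1 = ((p ^ m : ℕ) : L) := by
            change x.1 * (((p ^ m : ℕ) : L) / x.1) = _
            exact mul_div_cancel₀ _ (root_ne_zero hP j x)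
          have h6 := congrArg (fun y => ‖e y‖) h5
          simp only [map_mul, norm_mul, map_natCast] at h6
          rw [h2] at h6
          have h7 : 0 ≤ ‖e x.1‖ := norm_nonneg _
          have h8 : 0 ≤ ‖e (dual hP j x).1‖ := norm_nonneg _
          nlinarith
        have h3 : ‖e (∏ k, (μ k).1)‖ = 1 := by
          rw [map_prod, norm_prod]
          exact Finset.prod_eq_one fun k _ => h1 (μ k)
        rw [h3, h2, one_pow, one_pow, div_one]
    · intro e
      have h1 : ‖e (∏ k, (μ k).1)‖ ^ 2 = (((p : ℝ) ^ m)) ^ Fintype.card K := by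
        have hw : ∀ k, ‖e (μ k).1‖ ^ 2 = (p : ℝ) ^ m := fun k =>
          hP.weil _ (aeval_hom (e : L →+* ℂ) (μ k).2)
        rw [map_prod, norm_prod, ← Finset.prod_pow, Finset.prod_congr rfl (fun k _ => hw k),
          Finset.prod_const, Finset.card_univ]
      rw [map_div₀, map_pow, map_pow, map_natCast, norm_div, norm_pow, norm_pow, h1,
        Complex.norm_natCast]
      push_cast
      exact div_self (pow_pos (pow_pos hp0 _) _).ne'
  refine ⟨s, hs, ?_⟩
  rw [div_pow, div_eq_one_iff_eq (pow_ne_zero _ (pow_ne_zero _ hq0))] at hz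
  rw [pow_mul, hz, ← pow_mul, mul_comm]

end

end Pool.Agent.K1H15.BC
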