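import Mathlib
import Pool.Agent.W527.TateBasis
import Pool.Agent.K1H15.BC.Rel

/-!
# All Tate classes are generated in bounded codimension
-/

set_option autoImplicit false
set_option linter.unusedSectionVars false

namespace Pool.Agent.K1H15.BC

open Polynomial Module Equiv Pool.Agent.W527.TateRing

noncomputable section

section ring

variable {Ω : Type} [Field Ω] {X : FrobSpace Ω} {κ κ' : Type} {q N : ℕ}

theorem isTate_of_generated {f : Coh X κ} (h : Generated q N X κ f) : IsTate q f := by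
  induction h with
  | small hκ hN f hf => exact hf
  | zero κ => exact tate_zero κ
  | add f g _ _ ihf ihg => exact tate_add ihf ihg
  | smul a f _ ih => exact tate_smul a ih
  | reindex e f _ ih => exact tate_reindex e ih
  | cup f g _ _ h hh ihf ihg => exact tate_cup ihf ihg h hh

/-- The generated classes as a subspace. -/
def GS (q N : ℕ) (X : FrobSpace Ω) (κ : Type) : Submodule Ω (Coh X κ) where
  carrier := {f | Generated q N X κ f}
  add_mem' hf hg := Generated.add _ _ hf hg
  zero_mem' := Generated.zero κ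
  smul_mem' a _ hf := Generated.smul a _ hf

variable [CharZero Ω] [Fintype κ] [DecidableEq κ]

theorem mono_sum' [Fintype κ'] [DecidableEq κ'] {ξ : κ → Module.Dual Ω X.V}
    {ξ' : κ' → Module.Dual Ω X.V} (h1 : mono ξ ∈ GS q N X κ) (h2 : mono ξ' ∈ GS q N X κ') :
    mono (Sum.elim ξ ξ') ∈ GS q N X (κ ⊕ κ') := by
  have h3 : cupAlt (mono ξ) (mono ξ') ∈ GS q N X (κ ⊕ κ') :=
    Generated.cup _ _ h1 h2 _ (cupAlt_apply _ _)
  rw [mono_cup] at h3
  have h4 : (Fintype.card (Perm κ) : Ω) * (Fintype.card (Perm κ') : Ω) ≠ 0 := by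
    rw [← Nat.cast_mul]
    exact Nat.cast_ne_zero.2 (Nat.mul_ne_zero Fintype.card_ne_zero Fintype.card_ne_zero)
  have h5 := Submodule.smul_mem _ (((Fintype.card (Perm κ) : Ω) * (Fintype.card (Perm κ') : Ω))⁻¹) h3
  rwa [smul_smul, inv_mul_cancel₀ h4, one_smul] at h5

/-- Splitting off a subset of the variables. -/
theorem mono_split' (S : Finset κ) {ξ : κ → Module.Dual Ω X.V}
    (h1 : mono (fun k : {k // k ∈ S} => ξ k) ∈ GS q N X {k // k ∈ S})
    (h2 : mono (fun k : {k // k ∉ S} => ξ k) ∈ GS q N X {k // k ∉ S}) :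
    mono ξ ∈ GS q N X κ := by
  have h3 := mono_sum' h1 h2
  have h4 : (mono (Sum.elim (fun k : {k // k ∈ S} => ξ k) (fun k : {k // k ∉ S} => ξ k))).domDomCongr
      (Equiv.sumCompl (fun k => k ∈ S)) ∈ GS q N X κ := Generated.reindex _ _ h3
  rw [mono_reindex] at h4
  have h5 : (fun k => Sum.elim (fun k : {k // k ∈ S} => ξ k) (fun k : {k // k ∉ S} => ξ k)
      ((Equiv.sumCompl (fun k => k ∈ S)).symm k)) = ξ := by
    funext k
    by_cases hk : k ∈ S
    · rw [Equiv.sumCompl_symm_apply_of_pos hk]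
      rfl
    · rw [Equiv.sumCompl_symm_apply_of_neg hk]
      rfl
  rwa [h5] at h4

/-- From monomials to all classes. -/
theorem generated_of_mono {η : Type} [Fintype η] (b : Basis η Ω X.V) (c : η → Ω)
    (hF : ∀ i, X.F (b i) = c i • b i) {f : Coh X κ} (hf : IsTate q f) (h : ∀ x : κ → η,
      (∃ s : ℕ, 0 < s ∧ (∏ k, c (x k)) ^ (2 * s) = (q : Ω) ^ (s * Fintype.card κ)) →
      ∀ ξ : κ → Module.Dual Ω X.V, (∀ k v, ξ k (X.F v) = c (x k) * ξ k v) →
        mono ξ ∈ GS q N X κ) : Generated q N X κ f := by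
  classical
  obtain ⟨s, hs, hf⟩ := hf
  have hcoord : ∀ (i : η) (v : X.V), b.coord i (X.F v) = c i * b.coord i v := by
    intro i v
    have h5 : (b.coord i) ∘ₗ X.F = c i • b.coord i := by
      apply b.ext
      intro e'
      simp only [LinearMap.comp_apply, LinearMap.smul_apply, hF, map_smul, smul_eq_mul,
        Basis.coord_apply, Basis.repr_self]
      by_cases h : e' = i
      · rw [h]
      · rw [Finsupp.single_eq_of_ne' h, mul_zero, mul_zero]
    exact LinearMap.congr_fun h5 v
  have h1 := form_expand' b f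
  have h2 : ((Fintype.card (Perm κ) : ℕ) : Ω) • f ∈ GS q N X κ := by
    rw [h1]
    refine Submodule.sum_mem _ fun x _ => ?_
    by_cases hx : f (fun k => b (x k)) = 0
    · rw [hx, zero_smul]
      exact Submodule.zero_mem _
    · refine Submodule.smul_mem _ _ (h x ⟨s, hs, ?_⟩ _ fun k v => hcoord (x k) v)
      have h3 := hf (fun k => b (x k))
      have h4 : ∀ (r : ℕ) (y : η), (X.F ^ r) (b y) = c y ^ r • b y := by
        intro r y
        induction r with
        | zero => simp
        | succ r ih =>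
          rw [pow_succ', Module.End.mul_apply, ih, map_smul, hF, smul_smul, pow_succ]
      have h5 : f (fun k => (X.F ^ (2 * s)) (b (x k))) =
          (∏ k, c (x k) ^ (2 * s)) * f (fun k => b (x k)) := by
        have h6 : (fun k => (X.F ^ (2 * s)) (b (x k))) =
            fun k => c (x k) ^ (2 * s) • b (x k) := funext fun k => h4 _ _
        rw [h6]
        exact f.toMultilinearMap.map_smul_univ _ _
      rw [h5, Finset.prod_pow, Nat.card_eq_fintype_card] at h3
      exact mul_right_cancel₀ hx h3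
  have hne : ((Fintype.card (Perm κ) : ℕ) : Ω) ≠ 0 := Nat.cast_ne_zero.2 Fintype.card_ne_zero
  have h6 := Submodule.smul_mem _ (((Fintype.card (Perm κ) : ℕ) : Ω))⁻¹ h2
  rwa [smul_smul, inv_mul_cancel₀ hne, one_smul] at h6

end ring

section main

variable {p m g : ℕ} [hp : Fact p.Prime] {P : ℤ[X]} {L : Type} [Field L] [Algebra ℚ L]
  [FiniteDimensional ℚ L] [Normal ℚ L] {Ω : Type} [Field Ω] [CharZero Ω] {X : FrobSpace Ω}

/-- The decomposition of monomials. -/
theorem mono_generated (hm : 0 < m) (hP : IsFrobeniusPolynomial p m g P) (j : L →ₐ[ℚ] ℂ)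
    (jΩ : L →+* Ω) [Fintype (Rt P L)] (hcard : Fintype.card (Rt P L) ≤ 2 * g) (d : ℕ) :
    ∀ (K : Type) [Fintype K] [DecidableEq K] (μ : K → Rt P L), Fintype.card K = d → Even d →
      (∀ e : L →ₐ[ℚ] PadicAlgCl p, ∑ k, row hP e (μ k) = 0) →
      ∀ ξ : K → Module.Dual Ω X.V, (∀ k v, ξ k (X.F v) = jΩ (μ k).1 * ξ k v) →
        mono ξ ∈ GS (p ^ m) (bound g) X K := by
  classical
  induction d using Nat.strong_induction_on with
  | _ d ih =>
  intro K _ _ μ hK hev hsum ξ hξ
  rcases isEmpty_or_nonempty K with he | hne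
  · refine Generated.small ?_ ?_ _ (tate_unit _)
    · rw [Nat.card_of_isEmpty]
      exact Even.zero
    · rw [Nat.card_of_isEmpty]
      exact Nat.zero_le _
  have hrank : RankLe (fun e : L →ₐ[ℚ] PadicAlgCl p => row hP e) g :=
    rankLe_of_odd _ (dual hP j) (dual_dual hP j) (fun e x => row_dual hm hP j e x) hcard
  obtain ⟨S, hS1, hS2, hS3, hS4⟩ := exists_short_even (fun e : L →ₐ[ℚ] PadicAlgCl p => row hP e)
    (dd_pos g) (fun e x => slope_abs hP _ _) hrank μ hsum (by rw [hK]; exact hev)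
  have hS5 : S.card ≤ 2 * bound g := by
    refine hS4.trans ?_
    have h1 := BB_mono hcard (a := dd g) (r := g)
    have h2 : BB (2 * g) (dd g) g = bound g := by
      unfold BB MM bound dd
      ring
    rw [h2] at h1
    omega
  refine mono_split' S ?_ (ih (Fintype.card {k // k ∉ S}) ?_ {k // k ∉ S} (fun k => μ k) rfl ?_
    (fun e => ?_) _ (fun k v => hξ k v))
  · have hsum' : ∀ e : L →ₐ[ℚ] PadicAlgCl p, ∑ k : {k // k ∈ S}, row hP e (μ k) = 0 := by
      intro e
      rw [← hS3 e]
      exact Finset.sum_coe_sort S (fun k => row hP e (μ k))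
    obtain ⟨s, hs, hrel⟩ := rel_of_sum hP j (fun k : {k // k ∈ S} => μ k) hsum'
    refine Generated.small ?_ ?_ _ (isTate_mono (fun k v => hξ k v) hs ?_)
    · rw [Nat.card_eq_fintype_card, Fintype.card_coe]
      exact hS2
    · rw [Nat.card_eq_fintype_card, Fintype.card_coe]
      exact hS5
    · have h1 := congrArg jΩ hrel
      rw [map_pow, map_prod, map_pow, map_natCast] at h1
      exact h1
  · rw [← hK]
    obtain ⟨k, hk⟩ := hS1
    exact Fintype.card_subtype_lt (x := k) (fun h => h hk)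
  · have h1 : Fintype.card {k // k ∉ S} = d - S.card := by
      rw [Fintype.card_subtype_compl, hK, Fintype.card_coe]
    rw [h1]
    have h2 : S.card ≤ d := by
      rw [← hK]
      exact Finset.card_le_univ S
    exact (Nat.even_sub h2).2 ⟨fun _ => hS2, fun _ => hev⟩
  · have h2 := hsum e
    rw [← Finset.sum_compl_add_sum S, hS3 e, add_zero] at h2
    rw [← h2]
    exact (Finset.sum_subtype Sᶜ (fun k => Finset.mem_compl) (fun k => row hP e (μ k))).symm

end main

theorem exists_split (K : Type) [Field K] (f : K[X]) :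
    ∃ (L : Type) (_ : Field L) (_ : Algebra K L), FiniteDimensional K L ∧ Normal K L ∧
      (f.map (algebraMap K L)).Splits :=
  ⟨f.SplittingField, inferInstance, inferInstance, inferInstance, inferInstance,
    SplittingField.splits f⟩

/-- The theorem. -/
theorem main (g : ℕ) (p m : ℕ) [hp : Fact p.Prime] (hm : 0 < m) (P : ℤ[X])
    (hP : IsFrobeniusPolynomial p m g P) {Ω : Type} [Field Ω] [CharZero Ω] [IsAlgClosed Ω]
    (X : FrobSpace Ω) (hX : HasEigenvaluesIn P X) (κ : Type) [Finite κ] (hκ : Even (Nat.card κ))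
    (f : Coh X κ) : IsTate (p ^ m) f ↔ Generated (p ^ m) (bound g) X κ f := by
  classical
  refine ⟨fun hf => ?_, isTate_of_generated⟩
  have hP0 : P.map (algebraMap ℤ ℚ) ≠ 0 := (hP.monic.map _).ne_zero
  obtain ⟨L, _, _, hfd, hnormal, h⟩ := exists_split ℚ (P.map (algebraMap ℤ ℚ))
  have hchar : CharZero L := algebraRat.charZero L
  have hsplit : (P.map (algebraMap ℤ L)).Splits := by
    rw [Polynomial.map_map] at h
    have h2 : (algebraMap ℚ L).comp (algebraMap ℤ ℚ) = algebraMap ℤ L := RingHom.ext_int _ _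
    rw [← h2]
    exact h
  let j : L →ₐ[ℚ] ℂ := IsAlgClosed.lift
  let _ : Algebra ℚ Ω := DivisionRing.toRatAlgebra
  let jΩ : L →ₐ[ℚ] Ω := IsAlgClosed.lift
  have hiff : ∀ x : L, aeval x P = 0 ↔ x ∈ P.rootSet L := by
    intro x
    rw [Polynomial.mem_rootSet]
    exact ⟨fun h => ⟨hP.monic.ne_zero, h⟩, fun h => h.2⟩
  have hfin : Finite (Rt P L) := by
    have h1 : Finite (P.rootSet L) := inferInstance
    exact Finite.of_equiv _ (Equiv.subtypeEquivRight fun x => (hiff x).symm)
  let _ : Fintype (Rt P L) := Fintype.ofFinite _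
  have hcard : Fintype.card (Rt P L) ≤ 2 * g := by
    have h1 := Polynomial.ncard_rootSet_le P L
    rw [hP.degree] at h1
    have h2 : Fintype.card (Rt P L) = (P.rootSet L).ncard := by
      rw [← Nat.card_eq_fintype_card, ← Nat.card_coe_set_eq]
      exact Nat.card_congr (Equiv.subtypeEquivRight hiff)
    rw [h2]
    exact h1
  have hlift : ∀ z : Ω, aeval z P = 0 → ∃ x : Rt P L, jΩ x.1 = z := by
    intro z hz
    have h1 := hsplit.image_rootSet (jΩ : L →+* Ω).toIntAlgHom
    have h2 : z ∈ P.rootSet Ω := by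
      rw [Polynomial.mem_rootSet]
      exact ⟨hP.monic.ne_zero, hz⟩
    rw [← h1] at h2
    obtain ⟨x, hx, hxz⟩ := h2
    exact ⟨⟨x, (hiff x).2 hx⟩, hxz⟩
  let _ : Fintype κ := Fintype.ofFinite κ
  let S : Set X.V := {v : X.V | ∃ z : Ω, aeval z P = 0 ∧ X.F v = z • v}
  let b := Module.Basis.ofSpan (K := Ω) (s := S) (le_of_eq hX.symm)
  have : Finite ((linearIndepOn_empty Ω id).extend (Set.empty_subset S)) :=
    Module.Finite.finite_basis b
  let _ : Fintype ((linearIndepOn_empty Ω id).extend (Set.empty_subset S)) := Fintype.ofFinite _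
  have h3 : ∀ i, ∃ x : Rt P L, X.F (b i) = jΩ x.1 • b i := by
    intro i
    obtain ⟨z, hz, hzF⟩ := Module.Basis.ofSpan_subset (K := Ω) (s := S) (le_of_eq hX.symm) ⟨i, rfl⟩
    obtain ⟨x, hx⟩ := hlift z hz
    exact ⟨x, by rw [hx]; exact hzF⟩
  choose σ hσ using h3
  refine generated_of_mono b (fun i => jΩ (σ i).1) hσ hf ?_
  rintro x ⟨s, hs, hrel⟩ ξ hξ
  refine mono_generated hm hP j (jΩ : L →+* Ω) hcard (Fintype.card κ) κ (fun k => σ (x k)) rfl
    (by rwa [← Nat.card_eq_fintype_card]) (fun e => ?_) ξ hξ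
  refine sum_of_rel hm hP j (fun k => σ (x k)) hs ?_ e
  apply (jΩ : L →+* Ω).injective
  rw [map_pow, map_prod, map_pow, map_natCast]
  exact hrel

end

end Pool.Agent.K1H15.BC
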